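import Mathlib
import Pool.Agent.H15.Asc.Core
import Pool.Agent.H15.Asc.Orbit

set_option autoImplicit false

/-!
Stopping times along the orbits of the map `x / 2`, `(q x + d) / 2`: the potential function.
-/

namespace Pool.Agent.H15.St

open Finset
open Pool.Agent.H15.Asc (T T_even T_odd par od od_even od_odd Nu)

/-- orbits which do not meet `0` -/
structure Tr (q d : ℤ) (a : ℕ → ℤ) : Prop where
  q3 : 3 ≤ q
  qodd : q % 2 = 1
  dodd : d % 2 = 1
  step : ∀ i, a (i + 1) = T q d (a i)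
  ne : ∀ i, a i ≠ 0

variable {q d : ℤ} {a : ℕ → ℤ} {ν : ℝ → ℝ}

theorem Tr.d1 (h : Tr q d a) : 1 ≤ |(d : ℝ)| := by
  have h1 : d ≠ 0 := by have := h.dodd; omega
  have h2 : 1 ≤ |d| := Int.one_le_abs h1
  exact_mod_cast h2

theorem Tr.q3R (h : Tr q d a) : (3 : ℝ) ≤ q := by exact_mod_cast h.q3

theorem Tr.a1 (h : Tr q d a) (i : ℕ) : 1 ≤ |(a i : ℝ)| := by
  have h2 : 1 ≤ |a i| := Int.one_le_abs (h.ne i)
  exact_mod_cast h2

theorem Tr.even_abs (h : Tr q d a) {i : ℕ} (hi : a i % 2 = 0) :
    2 * |(a (i + 1) : ℝ)| = |(a i : ℝ)| := by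
  have h1 : 2 * a (i + 1) = a i := by rw [h.step]; exact T_even hi
  have h2 : (2 : ℝ) * (a (i + 1) : ℝ) = (a i : ℝ) := by exact_mod_cast h1
  rw [← h2, abs_mul]; norm_num

theorem Tr.odd_abs (h : Tr q d a) {i : ℕ} (hi : a i % 2 = 1) :
    2 * |(a (i + 1) : ℝ)| ≤ q * |(a i : ℝ)| + |(d : ℝ)| ∧
      q * |(a i : ℝ)| - |(d : ℝ)| ≤ 2 * |(a (i + 1) : ℝ)| := by
  have h1 : 2 * a (i + 1) = q * a i + d := by rw [h.step]; exact T_odd h.qodd h.dodd hi
  have h2 : (2 : ℝ) * (a (i + 1) : ℝ) = q * (a i : ℝ) + d := by exact_mod_cast h1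
  have h3 : 2 * |(a (i + 1) : ℝ)| = |q * (a i : ℝ) + d| := by
    rw [← h2, abs_mul]; norm_num
  have hq : (0 : ℝ) < q := by have := h.q3; exact_mod_cast (by omega : 0 < q)
  have h4 : |(q : ℝ) * (a i : ℝ)| = q * |(a i : ℝ)| := by rw [abs_mul, abs_of_pos hq]
  rw [h3, ← h4]
  constructor
  · exact abs_add_le _ _
  · have := abs_sub_abs_le_abs_sub ((q : ℝ) * (a i : ℝ)) (-(d : ℝ))
    rw [abs_neg, sub_neg_eq_add] at this
    exact this

/-- one step up -/
theorem Tr.free (h : Tr q d a) (i : ℕ) :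
    Real.log |(a (i + 1) : ℝ)| ≤ Real.log |(a i : ℝ)| + Real.log (q + |(d : ℝ)|) := by
  have hd := h.d1
  have hq := h.q3R
  have h1 := h.a1 i
  have h2 := h.a1 (i + 1)
  rw [← Real.log_mul (by linarith) (by linarith)]
  apply Real.log_le_log (by linarith)
  rcases par (a i) with h3 | h3
  · have h4 := h.even_abs h3
    nlinarith
  · have h4 := (h.odd_abs h3).1
    nlinarith

theorem Tr.step_log (h : Tr q d a) (i : ℕ) (hi : 10 * |(d : ℝ)| ≤ |(a i : ℝ)|) :
    |Real.log |(a (i + 1) : ℝ)| - Real.log |(a i : ℝ)| + Real.log 2 -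
      ((a i % 2).toNat : ℝ) * Real.log q| ≤ ((a i % 2).toNat : ℝ) * (|(d : ℝ)| / |(a i : ℝ)|) := by
  have hd1 := h.d1
  have hn' := h.a1 (i + 1)
  have hq3 := h.q3R
  set n : ℝ := |(a i : ℝ)| with hnd
  set n' : ℝ := |(a (i + 1) : ℝ)| with hnd'
  set b : ℝ := |(d : ℝ)| with hb
  rcases par (a i) with h1 | h1
  · have h2 := h.even_abs h1
    rw [← hnd, ← hnd'] at h2
    rw [h1]
    have h3 : Real.log n = Real.log 2 + Real.log n' := by
      rw [← h2, Real.log_mul (by norm_num) (by linarith)]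
    rw [h3]
    simp
  · obtain ⟨h2, h2'⟩ := h.odd_abs h1
    rw [← hnd, ← hnd', ← hb] at h2 h2'
    rw [h1]
    have hn0 : 0 < n := by linarith
    have hqn : 0 < q * n := by positivity
    have hqn3 : 3 * n ≤ q * n := mul_le_mul_of_nonneg_right hq3 hn0.le
    have h3 : Real.log (2 * n') = Real.log 2 + Real.log n' :=
      Real.log_mul (by norm_num) (by linarith)
    have h4 : Real.log (q * n) = Real.log q + Real.log n :=
      Real.log_mul (by linarith) (by linarith)
    have e : Real.log n' - Real.log n + Real.log 2 - (((1 : ℤ).toNat : ℕ) : ℝ) * Real.log q =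
        Real.log (2 * n') - Real.log (q * n) := by
      rw [h3, h4]; simp; ring
    have e2 : (((1 : ℤ).toNat : ℕ) : ℝ) * (b / n) = b / n := by simp
    rw [e, e2, abs_le]
    constructor
    · have h5 := Real.log_le_sub_one_of_pos (show 0 < q * n / (2 * n') by
        apply div_pos hqn; linarith)
      rw [Real.log_div (by linarith) (by linarith)] at h5
      have h6 : q * n / (2 * n') - 1 ≤ b / n := by
        rw [div_sub_one (by linarith), div_le_div_iff₀ (by linarith) hn0]
        nlinarith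
      linarith
    · have h5 := Real.log_le_sub_one_of_pos (show 0 < 2 * n' / (q * n) by
        apply div_pos _ hqn; linarith)
      rw [Real.log_div (by linarith) (by linarith)] at h5
      have h6 : 2 * n' / (q * n) - 1 ≤ b / n := by
        rw [div_sub_one (by linarith), div_le_div_iff₀ hqn hn0]
        nlinarith
      linarith

theorem od_bd (a : ℕ → ℤ) (s k : ℕ) : od a s ≤ od a (s + k) ∧ od a (s + k) ≤ od a s + k := by
  induction k with
  | zero => simp
  | succ k ih =>
    have e : od a (s + (k + 1)) = od a (s + k) + (a (s + k) % 2).toNat := rfl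
    rw [e]
    rcases par (a (s + k)) with h | h <;> rw [h] <;> simp <;> omega

theorem Tr.block_log (h : Tr q d a) {Y : ℝ} (hY : 10 * |(d : ℝ)| ≤ Y) (s k : ℕ)
    (hk : ∀ j, j < k → Y ≤ |(a (s + j) : ℝ)|) :
    |Real.log |(a (s + k) : ℝ)| - Real.log |(a s : ℝ)| + k * Real.log 2 -
      ((od a (s + k) : ℝ) - od a s) * Real.log q| ≤
      ((od a (s + k) : ℝ) - od a s) * (|(d : ℝ)| / Y) := by
  have hd1 := h.d1
  induction k with
  | zero => simp
  | succ k ih =>
    have ih := ih fun j hj => hk j (by omega)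
    have hY2 := hk k (by omega)
    have h1 := h.step_log (s + k) (hY.trans hY2)
    have h3 : (od a (s + (k + 1)) : ℝ) = od a (s + k) + ((a (s + k) % 2).toNat : ℝ) := by
      have : od a (s + (k + 1)) = od a (s + k) + (a (s + k) % 2).toNat := rfl
      rw [this]; push_cast; ring
    have h4 : |(d : ℝ)| / |(a (s + k) : ℝ)| ≤ |(d : ℝ)| / Y :=
      div_le_div_of_nonneg_left (by linarith) (by linarith) hY2
    have h5 : (((a (s + k) % 2).toNat : ℕ) : ℝ) * (|(d : ℝ)| / |(a (s + k) : ℝ)|) ≤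
        (((a (s + k) % 2).toNat : ℕ) : ℝ) * (|(d : ℝ)| / Y) :=
      mul_le_mul_of_nonneg_left h4 (Nat.cast_nonneg _)
    rw [h3, show s + (k + 1) = s + k + 1 by ring]
    push_cast
    have e : Real.log |(a (s + k + 1) : ℝ)| - Real.log |(a s : ℝ)| + ((k : ℝ) + 1) * Real.log 2 -
        ((od a (s + k) : ℝ) + ((a (s + k) % 2).toNat : ℝ) - od a s) * Real.log q =
        (Real.log |(a (s + k) : ℝ)| - Real.log |(a s : ℝ)| + k * Real.log 2 -
          ((od a (s + k) : ℝ) - od a s) * Real.log q) +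
        (Real.log |(a (s + k + 1) : ℝ)| - Real.log |(a (s + k) : ℝ)| + Real.log 2 -
          ((a (s + k) % 2).toNat : ℝ) * Real.log q) := by ring
    have e2 : ((od a (s + k) : ℝ) + ((a (s + k) % 2).toNat : ℝ) - od a s) * (|(d : ℝ)| / Y) =
        ((od a (s + k) : ℝ) - od a s) * (|(d : ℝ)| / Y) +
          (((a (s + k) % 2).toNat : ℕ) : ℝ) * (|(d : ℝ)| / Y) := by ring
    rw [e, e2]
    refine (abs_add_le _ _).trans ?_
    linarith

/-- a descent within `S` steps, above the threshold, is by a definite amount -/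
theorem Tr.clean (h : Tr q d a) (hν : Nu q ν) {S : ℕ} (hS : 1 ≤ S) {Y : ℝ}
    (hY : 10 * |(d : ℝ)| * S ≤ Y * ν S) (s k : ℕ) (hk1 : 1 ≤ k) (hkS : k ≤ S)
    (hbig : ∀ j, j < k → Y ≤ |(a (s + j) : ℝ)|) (hdesc : |a (s + k)| < |a s|) :
    Real.log |(a (s + k) : ℝ)| ≤ Real.log |(a s : ℝ)| - ν S / 2 := by
  have hd1 := h.d1
  have hS1 : (1 : ℝ) ≤ S := by exact_mod_cast hS
  have hν0 := hν.pos S hS1
  have hν1 := hν.le_one S hS1
  have hY0 : 0 < Y := by
    by_contra hcon
    have : Y * ν S ≤ 0 := mul_nonpos_of_nonpos_of_nonneg (by linarith) hν0.le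
    nlinarith
  have hYd : 10 * |(d : ℝ)| ≤ Y := by
    have h1 : Y * ν S ≤ Y := mul_le_of_le_one_right hY0.le hν1
    have h2 : 10 * |(d : ℝ)| * 1 ≤ 10 * |(d : ℝ)| * S := mul_le_mul_of_nonneg_left hS1 (by positivity)
    linarith
  have hb := h.block_log hYd s k hbig
  obtain ⟨ho1, ho2⟩ := od_bd a s k
  obtain ⟨κ, hκ⟩ := Nat.exists_eq_add_of_le ho1
  have hκk : κ ≤ k := by omega
  have e : (od a (s + k) : ℝ) - od a s = κ := by rw [hκ]; push_cast; ring
  rw [e] at hb
  have hdR : |(a (s + k) : ℝ)| < |(a s : ℝ)| := by exact_mod_cast hdesc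
  have ha := h.a1 (s + k)
  have hlt : Real.log |(a (s + k) : ℝ)| < Real.log |(a s : ℝ)| := Real.log_lt_log (by linarith) hdR
  have hl2 := Real.log_two_gt_d9
  have hk1R : (1 : ℝ) ≤ k := by exact_mod_cast hk1
  rcases Nat.eq_zero_or_pos κ with h0 | h0
  · rw [h0] at hb
    simp only [Nat.cast_zero, zero_mul, sub_zero] at hb
    have h5 := (abs_le.1 hb).2
    have h6 : Real.log 2 ≤ k * Real.log 2 := le_mul_of_one_le_left (by linarith) hk1R
    linarith
  · have hκ1 : (1 : ℝ) ≤ κ := by exact_mod_cast h0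
    have hκS : (κ : ℝ) ≤ S := by exact_mod_cast (hκk.trans hkS)
    have hlow := hν.low κ k h0
    have hanti := hν.anti κ S hκ1 hκS
    have herr : (κ : ℝ) * (|(d : ℝ)| / Y) ≤ ν S / 10 := by
      have h1 : (κ : ℝ) * (|(d : ℝ)| / Y) ≤ S * (|(d : ℝ)| / Y) :=
        mul_le_mul_of_nonneg_right hκS (by positivity)
      have h2 : (S : ℝ) * (|(d : ℝ)| / Y) = S * |(d : ℝ)| / Y := by ring
      have h3 : (S : ℝ) * |(d : ℝ)| / Y ≤ ν S / 10 := by
        rw [div_le_div_iff₀ hY0 (by norm_num)]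
        linarith
      linarith
    obtain ⟨hb1, hb2⟩ := abs_le.1 hb
    rcases le_or_gt 0 ((k : ℝ) * Real.log 2 - κ * Real.log q) with h1 | h1
    · rw [abs_of_nonneg h1] at hlow
      linarith
    · rw [abs_of_neg h1] at hlow
      linarith

/-- `a i` does not descend within `S` steps -/
def Bad (a : ℕ → ℤ) (S i : ℕ) : Prop := ∀ j, 1 ≤ j → j ≤ S → |a i| ≤ |a (i + j)|

open Classical in
/-- the number of times in `[i, M)` without a descent within `S` steps -/
noncomputable def FF (a : ℕ → ℤ) (S M i : ℕ) : ℕ := ((Ico i M).filter fun t => Bad a S t).card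

open Classical in
/-- the number of times in `[i, M)` with a small value -/
noncomputable def UU (a : ℕ → ℤ) (Y : ℝ) (M i : ℕ) : ℕ :=
  ((Ico i M).filter fun t => |(a t : ℝ)| < Y).card

theorem FF_mono (a : ℕ → ℤ) (S M : ℕ) {i j : ℕ} (h : i ≤ j) : FF a S M j ≤ FF a S M i := by
  classical
  unfold FF
  apply card_le_card
  apply filter_subset_filter
  exact Ico_subset_Ico_left h

theorem UU_mono (a : ℕ → ℤ) (Y : ℝ) (M : ℕ) {i j : ℕ} (h : i ≤ j) : UU a Y M j ≤ UU a Y M i := by
  classical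
  unfold UU
  apply card_le_card
  apply filter_subset_filter
  exact Ico_subset_Ico_left h

theorem FF_bad (a : ℕ → ℤ) (S M : ℕ) {i : ℕ} (hi : i < M) (hb : Bad a S i) :
    FF a S M (i + 1) + 1 ≤ FF a S M i := by
  classical
  unfold FF
  rw [← card_insert_of_notMem (a := i) (s := (Ico (i + 1) M).filter fun t => Bad a S t)
    (by simp)]
  apply card_le_card
  intro t ht
  rw [mem_insert, mem_filter, mem_Ico] at ht
  rw [mem_filter, mem_Ico]
  rcases ht with rfl | ⟨h1, h2⟩
  · exact ⟨⟨le_rfl, hi⟩, hb⟩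
  · exact ⟨⟨by omega, h1.2⟩, h2⟩

theorem UU_small (a : ℕ → ℤ) (Y : ℝ) (M : ℕ) {i j k : ℕ} (h1 : i ≤ j) (h2 : j < k) (h3 : k ≤ M)
    (hb : |(a j : ℝ)| < Y) : UU a Y M k + 1 ≤ UU a Y M i := by
  classical
  unfold UU
  rw [← card_insert_of_notMem (a := j) (s := (Ico k M).filter fun t => |(a t : ℝ)| < Y)
    (by simp [h2])]
  apply card_le_card
  intro t ht
  rw [mem_insert, mem_filter, mem_Ico] at ht
  rw [mem_filter, mem_Ico]
  rcases ht with rfl | ⟨h4, h5⟩
  · exact ⟨⟨h1, by omega⟩, hb⟩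
  · exact ⟨⟨by omega, h4.2⟩, h5⟩

/-- **the potential function** -/
theorem Tr.potential (h : Tr q d a) (hν : Nu q ν) {S : ℕ} (hS : 1 ≤ S) {Y : ℝ}
    (hY : 10 * |(d : ℝ)| * S ≤ Y * ν S) {L : ℝ} (hL : ∀ i, L ≤ Real.log |(a i : ℝ)|) (M : ℕ) :
    ∀ n i : ℕ, i ≤ M → M - i = n →
      (M : ℝ) - i ≤ FF a S M i * (1 + 2 * S / ν S * Real.log (q + |(d : ℝ)|)) +
        2 * S / ν S * (Real.log |(a i : ℝ)| - L) + S * UU a Y M i + S := by
  have hS1 : (1 : ℝ) ≤ S := by exact_mod_cast hS
  have hν0 := hν.pos S hS1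
  have hlam : 0 ≤ Real.log (q + |(d : ℝ)|) := by
    apply Real.log_nonneg
    have := h.q3R
    have := h.d1
    linarith
  set lam := Real.log (q + |(d : ℝ)|) with hlamd
  set R : ℝ := 2 * S / ν S with hR
  have hR0 : 0 ≤ R := by positivity
  intro n
  induction n using Nat.strong_induction_on with
  | _ n ih =>
    intro i hiM hn
    have hLi := hL i
    have hF0 : (0 : ℝ) ≤ FF a S M i := Nat.cast_nonneg _
    have hU0 : (0 : ℝ) ≤ UU a Y M i := Nat.cast_nonneg _
    have hpos : 0 ≤ (FF a S M i : ℝ) * (1 + R * lam) + R * (Real.log |(a i : ℝ)| - L) +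
        S * UU a Y M i := by
      have : 0 ≤ Real.log |(a i : ℝ)| - L := by linarith
      positivity
    rcases Nat.lt_or_ge (M - i) (S + 1) with h1 | h1
    · have h2 : (M : ℝ) - i ≤ S := by
        have : M ≤ S + i := by omega
        have h3 : (M : ℝ) ≤ S + i := by exact_mod_cast this
        linarith
      linarith
    · by_cases hb : Bad a S i
      · have h2 := ih (n - 1) (by omega) (i + 1) (by omega) (by omega)
        have h3 := FF_bad a S M (by omega : i < M) hb
        have h3R : (FF a S M (i + 1) : ℝ) + 1 ≤ FF a S M i := by exact_mod_cast h3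
        have h4 := UU_mono a Y M (Nat.le_succ i)
        have h4R : (UU a Y M (i + 1) : ℝ) ≤ UU a Y M i := by exact_mod_cast h4
        have h5 := h.free i
        rw [← hlamd] at h5
        have h6 : (FF a S M (i + 1) : ℝ) * (1 + R * lam) ≤ (FF a S M i - 1) * (1 + R * lam) :=
          mul_le_mul_of_nonneg_right (by linarith) (by positivity)
        have h7 : R * (Real.log |(a (i + 1) : ℝ)| - L) ≤ R * (Real.log |(a i : ℝ)| - L) + R * lam := by
          rw [← mul_add]
          exact mul_le_mul_of_nonneg_left (by linarith) hR0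
        have h8 : (S : ℝ) * UU a Y M (i + 1) ≤ S * UU a Y M i :=
          mul_le_mul_of_nonneg_left h4R (by linarith)
        push_cast at h2
        linarith
      · unfold Bad at hb
        push Not at hb
        obtain ⟨j, hj1, hjS, hlt⟩ := hb
        have h2 := ih (M - (i + j)) (by omega) (i + j) (by omega) rfl
        have h3 : (FF a S M (i + j) : ℝ) ≤ FF a S M i := by
          exact_mod_cast FF_mono a S M (Nat.le_add_right i j)
        have h6 : (FF a S M (i + j) : ℝ) * (1 + R * lam) ≤ FF a S M i * (1 + R * lam) :=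
          mul_le_mul_of_nonneg_right h3 (by positivity)
        have hjR : (j : ℝ) ≤ S := by exact_mod_cast hjS
        by_cases hc : ∀ k, k < j → Y ≤ |(a (i + k) : ℝ)|
        · have h4 := h.clean hν hS hY i j hj1 hjS hc hlt
          have h5 : (UU a Y M (i + j) : ℝ) ≤ UU a Y M i := by
            exact_mod_cast UU_mono a Y M (Nat.le_add_right i j)
          have h7 : R * (Real.log |(a (i + j) : ℝ)| - L) ≤ R * (Real.log |(a i : ℝ)| - L) - S := by
            have h8 : R * (ν S / 2) = S := by rw [hR]; field_simp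
            have h9 : R * (Real.log |(a (i + j) : ℝ)| - L) ≤
                R * (Real.log |(a i : ℝ)| - L - ν S / 2) :=
              mul_le_mul_of_nonneg_left (by linarith) hR0
            rw [mul_sub R _ (ν S / 2), h8] at h9
            exact h9
          have h8 : (S : ℝ) * UU a Y M (i + j) ≤ S * UU a Y M i :=
            mul_le_mul_of_nonneg_left h5 (by linarith)
          push_cast at h2
          linarith
        · push Not at hc
          obtain ⟨k, hk, hsm⟩ := hc
          have h4 := UU_small a Y M (Nat.le_add_right i k) (by omega : i + k < i + j) (by omega) hsm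
          have h4R : (UU a Y M (i + j) : ℝ) + 1 ≤ UU a Y M i := by exact_mod_cast h4
          have h5 : R * (Real.log |(a (i + j) : ℝ)| - L) ≤ R * (Real.log |(a i : ℝ)| - L) := by
            apply mul_le_mul_of_nonneg_left _ hR0
            have hltR : |(a (i + j) : ℝ)| < |(a i : ℝ)| := by exact_mod_cast hlt
            have := h.a1 (i + j)
            have := Real.log_le_log (by linarith) hltR.le
            linarith
          have h8 : (S : ℝ) * UU a Y M (i + j) ≤ S * (UU a Y M i - 1) :=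
            mul_le_mul_of_nonneg_left (by linarith) (by linarith)
          push_cast at h2
          linarith

end Pool.Agent.H15.St
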