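import Mathlib
import Pool.Agent.H15.St.Core

set_option autoImplicit false

/-!
Stopping times along orbits: the number of visits, the main inequality.
-/

namespace Pool.Agent.H15.St

open Finset
open Pool.Agent.H15.Asc (T Nu)

variable {q d : ℤ} {a : ℕ → ℤ} {ν : ℝ → ℝ}

theorem Tr.shift (h : Tr q d a) {s t : ℕ} (hst : a s = a t) (k : ℕ) : a (s + k) = a (t + k) := by
  induction k with
  | zero => simpa using hst
  | succ k ih => rw [← add_assoc, ← add_assoc, h.step, h.step, ih]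

/-- between two visits of the same integer there is a time which is bad for all `S` -/
theorem Tr.bad_between (h : Tr q d a) {s t : ℕ} (hlt : s < t) (hst : a s = a t) :
    ∃ u, s ≤ u ∧ u < t ∧ ∀ S, Bad a S u := by
  obtain ⟨u, hu, hmin⟩ := exists_min_image (Ico s t) (fun i => |a i|) ⟨s, by simp [hlt]⟩
  rw [mem_Ico] at hu
  refine ⟨u, hu.1, hu.2, fun S j _ _ => ?_⟩
  have hper : ∀ k, a (s + k) = a (s + k % (t - s)) := by
    intro k
    induction k using Nat.strong_induction_on with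
    | _ k ih =>
      rcases Nat.lt_or_ge k (t - s) with h1 | h1
      · rw [Nat.mod_eq_of_lt h1]
      · have h2 := h.shift hst (k - (t - s))
        rw [show t + (k - (t - s)) = s + k by omega] at h2
        rw [← h2, ih (k - (t - s)) (by omega), ← Nat.mod_eq_sub_mod h1]
  have h1 := hper (u - s + j)
  rw [show s + (u - s + j) = u + j by omega] at h1
  rw [h1]
  apply hmin
  rw [mem_Ico]
  have := Nat.mod_lt (u - s + j) (by omega : 0 < t - s)
  omega

open Classical in
/-- the number of visits of one integer -/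
theorem Tr.visits (h : Tr q d a) (S M : ℕ) (y : ℤ) :
    ((range M).filter fun t => a t = y).card ≤ FF a S M 0 + 1 := by
  set V := (range M).filter fun t => a t = y with hV
  rcases V.eq_empty_or_nonempty with h0 | h0
  · rw [h0]; simp
  · set m := V.max' h0 with hm
    have hmV : m ∈ V := V.max'_mem h0
    have hbt : ∀ s ∈ V.erase m, ∃ u, s ≤ u ∧ u < m ∧ Bad a S u := by
      intro s hs
      have hs2 := mem_erase.1 hs
      have hsm : s < m := lt_of_le_of_ne (V.le_max' _ hs2.2) hs2.1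
      have h1 : a s = a m := by
        rw [(mem_filter.1 hs2.2).2, (mem_filter.1 hmV).2]
      obtain ⟨u, hu1, hu2, hu3⟩ := h.bad_between hsm h1
      exact ⟨u, hu1, hu2, hu3 S⟩
    have hbt2 : ∀ s ∈ V, ∀ t ∈ V, s < t → ∃ u, s ≤ u ∧ u < t ∧ Bad a S u := by
      intro s hs t ht hst
      have h1 : a s = a t := by rw [(mem_filter.1 hs).2, (mem_filter.1 ht).2]
      obtain ⟨u, hu1, hu2, hu3⟩ := h.bad_between hst h1
      exact ⟨u, hu1, hu2, hu3 S⟩
    have hMm : m < M := mem_range.1 (mem_filter.1 hmV).1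
    have hcard : (V.erase m).card ≤ ((Ico 0 M).filter fun t => Bad a S t).card := by
      let f : ℕ → ℕ := fun s => if hs : ∃ u, s ≤ u ∧ u < m ∧ Bad a S u then Nat.find hs else 0
      have hf : ∀ s ∈ V.erase m, s ≤ f s ∧ f s < m ∧ Bad a S (f s) ∧
          ∀ u, s ≤ u → u < m → Bad a S u → f s ≤ u := by
        intro s hs
        have h1 := hbt s hs
        have h2 : f s = Nat.find h1 := dif_pos h1
        obtain ⟨h3, h4, h5⟩ := Nat.find_spec h1
        rw [h2]
        exact ⟨h3, h4, h5, fun u hu1 hu2 hu3 => Nat.find_min' h1 ⟨hu1, hu2, hu3⟩⟩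
      apply card_le_card_of_injOn f
      · intro s hs
        obtain ⟨h1, h2, h3, -⟩ := hf s (mem_coe.1 hs)
        rw [mem_coe, mem_filter, mem_Ico]
        exact ⟨⟨by omega, by omega⟩, h3⟩
      · have key : ∀ s ∈ V.erase m, ∀ t ∈ V.erase m, s < t → f s < f t := by
          intro s hs t ht hst
          obtain ⟨u, hu1, hu2, hu3⟩ := hbt2 s (mem_erase.1 hs).2 t (mem_erase.1 ht).2 hst
          have ht2 := mem_erase.1 ht
          have htm : t < m := lt_of_le_of_ne (V.le_max' _ ht2.2) ht2.1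
          have h1 := (hf s hs).2.2.2 u hu1 (by omega) hu3
          have h2 := (hf t ht).1
          omega
        intro s hs t ht hst
        have hs' : s ∈ V.erase m := mem_coe.1 hs
        have ht' : t ∈ V.erase m := mem_coe.1 ht
        rcases lt_trichotomy s t with h1 | h1 | h1
        · have := key s hs' t ht' h1; omega
        · exact h1
        · have := key t ht' s hs' h1; omega
    have h2 : V.card = (V.erase m).card + 1 := by
      rw [card_erase_of_mem hmV]
      have := card_pos.2 h0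
      omega
    unfold FF
    omega

open Classical in
/-- the number of visits to small integers -/
theorem Tr.small_visits (h : Tr q d a) (S M : ℕ) {Y : ℝ} (hY : 0 ≤ Y) :
    (UU a Y M 0 : ℝ) ≤ (2 * Y + 1) * (FF a S M 0 + 1) := by
  set N := ⌊Y⌋₊ with hN
  set W := (Ico 0 M).filter fun t => |(a t : ℝ)| < Y with hW
  have h1 : W.card ≤ (FF a S M 0 + 1) * (W.image a).card := by
    apply card_le_mul_card_image
    intro y _
    refine le_trans ?_ (h.visits S M y)
    apply card_le_card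
    intro t ht
    rw [mem_filter] at ht
    rw [mem_filter, mem_range]
    rw [hW, mem_filter, mem_Ico] at ht
    exact ⟨ht.1.1.2, ht.2⟩
  have h2 : (W.image a).card ≤ 2 * N + 1 := by
    have h3 : W.image a ⊆ Icc (-(N : ℤ)) N := by
      intro y hy
      obtain ⟨t, ht, rfl⟩ := mem_image.1 hy
      rw [hW, mem_filter] at ht
      have h4 : ((a t).natAbs : ℝ) < Y := by
        rw [Nat.cast_natAbs]; push_cast; exact ht.2
      have h5 : (a t).natAbs ≤ N := Nat.le_floor h4.le
      rw [mem_Icc]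
      omega
    refine (card_le_card h3).trans ?_
    rw [Int.card_Icc]
    omega
  have h3 : (UU a Y M 0 : ℝ) ≤ (FF a S M 0 + 1) * (2 * N + 1) := by
    have h4 : W.card ≤ (FF a S M 0 + 1) * (2 * N + 1) := h1.trans (Nat.mul_le_mul_left _ h2)
    have h5 : UU a Y M 0 = W.card := rfl
    rw [h5]
    exact_mod_cast h4
  have h4 : (N : ℝ) ≤ Y := Nat.floor_le hY
  refine h3.trans ?_
  rw [mul_comm]
  exact mul_le_mul_of_nonneg_right (by linarith) (by positivity)

/-- **main inequality** -/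
theorem Tr.main (h : Tr q d a) (hν : Nu q ν) {S : ℕ} (hS : 1 ≤ S) {L : ℝ}
    (hL : ∀ i, L ≤ Real.log |(a i : ℝ)|) (M : ℕ) :
    (M : ℝ) * ν S ≤ 11 * q * |(d : ℝ)| * S ^ 2 *
      (FF a S M 0 + 1 + (Real.log |(a 0 : ℝ)| - L)) := by
  have hd1 := h.d1
  have hq3 := h.q3R
  have hS1 : (1 : ℝ) ≤ S := by exact_mod_cast hS
  have hν0 := hν.pos S hS1
  have hν1 := hν.le_one S hS1
  set Y : ℝ := 10 * |(d : ℝ)| * S / ν S with hYd
  have hY0 : 0 ≤ Y := by positivity
  have hYν : Y * ν S = 10 * |(d : ℝ)| * S := by rw [hYd]; field_simp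
  have h1 := h.potential hν hS hYν.ge hL M M 0 (Nat.zero_le _) (Nat.sub_zero _)
  have h2 := h.small_visits S M hY0
  have hlam : Real.log (q + |(d : ℝ)|) ≤ q + |(d : ℝ)| - 1 :=
    Real.log_le_sub_one_of_pos (by linarith)
  have hlam0 : 0 ≤ Real.log (q + |(d : ℝ)|) := Real.log_nonneg (by linarith)
  set lam := Real.log (q + |(d : ℝ)|) with hlamd
  set F : ℝ := (FF a S M 0 : ℝ) with hF
  set D : ℝ := Real.log |(a 0 : ℝ)| - L with hD
  have hF0 : 0 ≤ F := Nat.cast_nonneg _
  have hD0 : 0 ≤ D := by have := hL 0; rw [hD]; linarith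
  set v := ν S with hv
  have h3 := mul_le_mul_of_nonneg_right h1 hν0.le
  simp only [Nat.cast_zero, sub_zero] at h3
  refine h3.trans ?_
  have h4 : (S : ℝ) * UU a Y M 0 * v ≤ S * (2 * (10 * |(d : ℝ)| * S) + v) * (F + 1) := by
    have h5 : (S : ℝ) * UU a Y M 0 * v ≤ S * ((2 * Y + 1) * (F + 1)) * v := by
      apply mul_le_mul_of_nonneg_right _ hν0.le
      exact mul_le_mul_of_nonneg_left h2 (by linarith)
    have h6 : S * ((2 * Y + 1) * (F + 1)) * v = S * (2 * (Y * v) + v) * (F + 1) := by ring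
    rw [h6, hYν] at h5
    exact h5
  have h5 : (F * (1 + 2 * S / v * lam) + 2 * S / v * D + S * UU a Y M 0 + S) * v =
      F * (v + 2 * S * lam) + 2 * S * D + S * UU a Y M 0 * v + S * v := by
    field_simp
  rw [h5]
  have hSS : (S : ℝ) ≤ S ^ 2 := by nlinarith
  have hv1 : v ≤ S := hν1.trans hS1
  have hqd : 3 * |(d : ℝ)| ≤ q * |(d : ℝ)| := mul_le_mul_of_nonneg_right hq3 (by linarith)
  have hqd2 : (q : ℝ) ≤ q * |(d : ℝ)| := le_mul_of_one_le_right (by linarith) hd1
  -- compare the terms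
  have t1 : F * (v + 2 * S * lam) ≤ F * (S ^ 2 * (1 + 2 * lam)) := by
    apply mul_le_mul_of_nonneg_left _ hF0
    nlinarith
  have t2 : 2 * S * D ≤ 2 * S ^ 2 * D := by nlinarith
  have t3 : S * (2 * (10 * |(d : ℝ)| * S) + v) * (F + 1) ≤ S ^ 2 * (20 * |(d : ℝ)| + 1) * (F + 1) := by
    apply mul_le_mul_of_nonneg_right _ (by linarith)
    nlinarith
  have t4 : S * v ≤ S ^ 2 := by nlinarith
  have hS2 : 0 ≤ (S : ℝ) ^ 2 := by positivity
  have c1 : (1 + 2 * lam) + (20 * |(d : ℝ)| + 1) ≤ 11 * q * |(d : ℝ)| := by nlinarith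
  have c2 : (20 * |(d : ℝ)| + 1) + 1 ≤ 11 * q * |(d : ℝ)| := by nlinarith
  have c3 : 2 ≤ 11 * q * |(d : ℝ)| := by nlinarith
  have e1 : F * (S ^ 2 * (1 + 2 * lam)) + 2 * S ^ 2 * D + S ^ 2 * (20 * |(d : ℝ)| + 1) * (F + 1) +
      S ^ 2 = S ^ 2 * (F * ((1 + 2 * lam) + (20 * |(d : ℝ)| + 1)) + ((20 * |(d : ℝ)| + 1) + 1) +
        D * 2) := by ring
  have e2 : 11 * q * |(d : ℝ)| * S ^ 2 * (F + 1 + D) =
      S ^ 2 * (F * (11 * q * |(d : ℝ)|) + 11 * q * |(d : ℝ)| + D * (11 * q * |(d : ℝ)|)) := by ring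
  rw [e2]
  have t5 : S ^ 2 * (F * ((1 + 2 * lam) + (20 * |(d : ℝ)| + 1)) + ((20 * |(d : ℝ)| + 1) + 1) +
        D * 2) ≤ S ^ 2 * (F * (11 * q * |(d : ℝ)|) + 11 * q * |(d : ℝ)| + D * (11 * q * |(d : ℝ)|)) := by
    apply mul_le_mul_of_nonneg_left _ hS2
    have u1 := mul_le_mul_of_nonneg_left c1 hF0
    have u2 := mul_le_mul_of_nonneg_left c3 hD0
    linarith
  linarith

end Pool.Agent.H15.St
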