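import Mathlib
import Pool.Agent.H15.St.Visits
import Pool.Agent.H15.Cx.Gen
import Pool.Agent.H15.Asc.FinP

set_option autoImplicit false

/-!
Stopping times of the elements of cycles.
-/

namespace Pool.Agent.H15.St

open Finset
open Pool.Agent.H15.Asc (T T_even T_odd par IsCycle Nu nu3 nu3_Nu nuE nuE_Nu nuE_low)

/-- `x` does not descend within `S` steps -/
def Long (f : ℤ → ℤ) (S : ℕ) (x : ℤ) : Prop := ∀ j, 1 ≤ j → j ≤ S → |x| ≤ |f^[j] x|

open Classical in
/-- the elements of `Z` which do not descend within `S` steps -/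
noncomputable def long (f : ℤ → ℤ) (S : ℕ) (Z : Finset ℤ) : Finset ℤ := Z.filter (Long f S)

theorem mem_long {f : ℤ → ℤ} {S : ℕ} {Z : Finset ℤ} {x : ℤ} :
    x ∈ long f S Z ↔ x ∈ Z ∧ ∀ j, 1 ≤ j → j ≤ S → |x| ≤ |f^[j] x| := by
  classical
  unfold long
  rw [Finset.mem_filter]
  rfl

variable {q d : ℤ} {ν : ℝ → ℝ} {Z : Finset ℤ}

theorem exists_min_mem (hZ : IsCycle (T q d) Z) : ∃ x ∈ Z, ∀ y ∈ Z, |x| ≤ |y| := by
  obtain ⟨x, hx, h⟩ := exists_min_image Z (fun y => |y|) hZ.nonempty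
  exact ⟨x, hx, h⟩

theorem long_pos (hZ : IsCycle (T q d) Z) (S : ℕ) : 1 ≤ (long (T q d) S Z).card := by
  obtain ⟨x, hx, hmin⟩ := exists_min_mem hZ
  exact card_pos.2 ⟨x, mem_long.2 ⟨hx, fun j _ _ => hmin _ (hZ.closed hx j)⟩⟩

theorem cycle_main (hq3 : 3 ≤ q) (hq : q % 2 = 1) (hd : d % 2 = 1) (hν : Nu q ν)
    (hZ : IsCycle (T q d) Z) {S : ℕ} (hS : 1 ≤ S) :
    (Z.card : ℝ) * ν S ≤ 22 * q * |(d : ℝ)| * S ^ 2 * (long (T q d) S Z).card := by
  have hS1 : (1 : ℝ) ≤ S := by exact_mod_cast hS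
  have hν0 := hν.pos S hS1
  have hν1 := hν.le_one S hS1
  have hd1 : 1 ≤ |(d : ℝ)| := by
    have : 1 ≤ |d| := Int.one_le_abs (by omega)
    exact_mod_cast this
  have hq3R : (3 : ℝ) ≤ q := by exact_mod_cast hq3
  have hlp : (1 : ℝ) ≤ (long (T q d) S Z).card := by exact_mod_cast long_pos hZ S
  obtain ⟨x, hx, hmin⟩ := exists_min_mem hZ
  by_cases h0 : (0 : ℤ) ∈ Z
  · -- the cycle `{0}`
    have hT0 : T q d 0 = 0 := by unfold T; simp
    have hZ0 : Z = {0} := by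
      apply Finset.eq_singleton_iff_unique_mem.2
      refine ⟨h0, fun y hy => ?_⟩
      obtain ⟨j, rfl⟩ := hZ.gen h0 hy
      exact Function.iterate_fixed hT0 j
    have hc : (Z.card : ℝ) = 1 := by rw [hZ0]; simp
    rw [hc, one_mul]
    have h1 : (1 : ℝ) ≤ 22 * q * |(d : ℝ)| * S ^ 2 := by
      have : (1 : ℝ) ≤ S ^ 2 := by nlinarith
      have : (1 : ℝ) ≤ 22 * q * |(d : ℝ)| := by nlinarith
      nlinarith
    nlinarith
  · have htr : Tr q d (fun i => (T q d)^[i] x) :=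
      { q3 := hq3, qodd := hq, dodd := hd
        step := fun i => Function.iterate_succ_apply' _ _ _
        ne := fun i hi => h0 (by rw [← hi]; exact hZ.closed hx i) }
    have hL : ∀ i, Real.log |(x : ℝ)| ≤ Real.log |((T q d)^[i] x : ℝ)| := by
      intro i
      have h1 : |x| ≤ |(T q d)^[i] x| := hmin _ (hZ.closed hx i)
      have h2 : |(x : ℝ)| ≤ |((T q d)^[i] x : ℝ)| := by exact_mod_cast h1
      have hx0 : x ≠ 0 := fun h => h0 (h ▸ hx)
      exact Real.log_le_log (abs_pos.2 (by exact_mod_cast hx0)) h2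
    have h1 := htr.main hν hS hL Z.card
    simp only [Function.iterate_zero, id, sub_self, add_zero] at h1
    have h2 : FF (fun i => (T q d)^[i] x) S Z.card 0 ≤ (long (T q d) S Z).card := by
      classical
      have hp := hZ.card_eq hx
      unfold FF
      apply card_le_card_of_injOn (fun i => (T q d)^[i] x)
      · intro i hi
        rw [mem_coe, mem_filter, mem_Ico] at hi
        rw [mem_coe, mem_long]
        refine ⟨hZ.closed hx i, fun j hj1 hj2 => ?_⟩
        have := hi.2 j hj1 hj2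
        rw [← Function.iterate_add_apply, add_comm j i]
        exact this
      · intro i hi j hj hij
        rw [mem_coe, mem_filter, mem_Ico] at hi hj
        rw [hp] at hi hj
        exact (Function.iterate_eq_iterate_iff_of_lt_minimalPeriod hi.1.2 hj.1.2).1 hij
    have h3 : (FF (fun i => (T q d)^[i] x) S Z.card 0 : ℝ) + 1 ≤ 2 * (long (T q d) S Z).card := by
      have : (FF (fun i => (T q d)^[i] x) S Z.card 0 : ℝ) ≤ (long (T q d) S Z).card := by
        exact_mod_cast h2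
      linarith
    refine h1.trans ?_
    have h4 : 11 * q * |(d : ℝ)| * S ^ 2 * (FF (fun i => (T q d)^[i] x) S Z.card 0 + 1) ≤
        11 * q * |(d : ℝ)| * S ^ 2 * (2 * (long (T q d) S Z).card) :=
      mul_le_mul_of_nonneg_left h3 (by positivity)
    refine h4.trans (le_of_eq (by ring))

/-- `q = 3` -/
theorem cycle3 (hd : d % 2 = 1) (hZ : IsCycle (T 3 d) Z) {S : ℕ} (hS : 1 ≤ S) :
    (Z.card : ℝ) ≤ 66 * (2 ^ 13 * 86 ^ 49) * |(d : ℝ)| * S ^ 51 * (long (T 3 d) S Z).card := by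
  have hS1 : (1 : ℝ) ≤ S := by exact_mod_cast hS
  have h1 := cycle_main (q := 3) (ν := nu3) le_rfl (by norm_num) hd
    (by exact_mod_cast nu3_Nu) hZ hS
  have hν : nu3 S * (2 ^ 13 * (86 * (S : ℝ)) ^ 49) = 1 := by
    unfold nu3
    field_simp
  have h2 := mul_le_mul_of_nonneg_right h1 (show (0 : ℝ) ≤ 2 ^ 13 * (86 * (S : ℝ)) ^ 49 by positivity)
  rw [mul_assoc, hν, mul_one] at h2
  refine h2.trans (le_of_eq ?_)
  push_cast
  ring

/-- `q` a prime -/
theorem cycleP {p : ℕ} {C : ℝ} (hp3 : 3 ≤ p) (hp : p % 2 = 1) (hC : 1 ≤ C)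
    (hlow : ∀ k s : ℕ, 1 ≤ k → nuE C k ≤ |(s : ℝ) * Real.log 2 - k * Real.log p|)
    (hd : d % 2 = 1) (hZ : IsCycle (T p d) Z) {S : ℕ} (hS : 1 ≤ S) :
    (Z.card : ℝ) ≤ 22 * p * |(d : ℝ)| * S ^ 2 * Real.exp (C * (1 + Real.log S) ^ 2) *
      (long (T p d) S Z).card := by
  have h1 := cycle_main (q := p) (ν := nuE C) (by exact_mod_cast hp3) (by omega) hd
    (by exact_mod_cast nuE_Nu hC hlow) hZ hS
  have hν : nuE C S * Real.exp (C * (1 + Real.log S) ^ 2) = 1 := by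
    unfold nuE
    rw [← Real.exp_add]; simp
  have h2 := mul_le_mul_of_nonneg_right h1 (Real.exp_pos (C * (1 + Real.log S) ^ 2)).le
  rw [mul_assoc, hν, mul_one] at h2
  refine h2.trans (le_of_eq ?_)
  push_cast
  ring

/-- finiteness -/
theorem cycle_fin {p : ℕ} (hp : p.Prime) (hp2 : p ≠ 2) (hd : d % 2 = 1) (S B : ℕ) :
    {Z : Finset ℤ | IsCycle (T p d) Z ∧ (long (T p d) S Z).card ≤ B}.Finite := by
  have hp3 : 3 ≤ p := by have := hp.two_le; omega
  have hpo : p % 2 = 1 := by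
    rcases hp.eq_two_or_odd with h | h
    · exact absurd h hp2
    · exact h
  obtain ⟨C, hC, hlow⟩ := nuE_low p hp hp2
  refine Pool.Agent.H15.Cx.fin_of_bdd (q := p) (ν := nuE C) (by exact_mod_cast hp3) (by omega) hd
    (by exact_mod_cast nuE_Nu hC hlow) _ (fun Z hZ => hZ.1)
    (22 * p * |(d : ℝ)| * (S + 1) ^ 2 * Real.exp (C * (1 + Real.log (S + 1)) ^ 2) * B) ?_
  rintro Z ⟨hZ, hB⟩
  have h1 := cycleP hp3 hpo hC hlow hd hZ (Nat.le_add_left 1 S)
  push_cast at h1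
  refine h1.trans ?_
  have h2 : (long (T p d) (S + 1) Z).card ≤ B := by
    refine (card_le_card ?_).trans hB
    intro x hx
    rw [mem_long] at hx ⊢
    exact ⟨hx.1, fun j h3 h4 => hx.2 j h3 (by omega)⟩
  have h3 : ((long (T p d) (S + 1) Z).card : ℝ) ≤ B := by exact_mod_cast h2
  exact mul_le_mul_of_nonneg_left h3 (by positivity)

end Pool.Agent.H15.St
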