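import Mathlib
import Pool.Agent.H15.St.Visits
import Pool.Agent.H15.Asc.Main3

set_option autoImplicit false

/-!
Stopping times along the trajectories of the `3x+1` map on the positive integers.
-/

namespace Pool.Agent.H15.St

open Finset
open Pool.Agent.H15.Asc (Nu nu3 nu3_Nu)

/-- the `3x+1` map -/
def SP (n : ℕ) : ℕ := if n % 2 = 0 then n / 2 else (3 * n + 1) / 2

theorem SP_pos {n : ℕ} (hn : 0 < n) : 0 < SP n := by
  unfold SP; split_ifs <;> omega

theorem SP_iter_pos {n : ℕ} (hn : 0 < n) (i : ℕ) : 0 < SP^[i] n := by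
  induction i with
  | zero => exact hn
  | succ i ih => rw [Function.iterate_succ_apply']; exact SP_pos ih

theorem SP_cast (n : ℕ) : (SP n : ℤ) = Pool.Agent.H15.Asc.T 3 1 n := by
  unfold SP Pool.Agent.H15.Asc.T
  rcases Nat.mod_two_eq_zero_or_one n with h | h
  · rw [if_pos h, if_pos (by omega)]; push_cast; rfl
  · rw [if_neg (by omega), if_neg (by omega)]; push_cast; rfl

theorem tr {n : ℕ} (hn : 0 < n) : Tr 3 1 (fun i => (SP^[i] n : ℤ)) where
  q3 := le_rfl
  qodd := by norm_num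
  dodd := by norm_num
  step i := by
    rw [Function.iterate_succ_apply', SP_cast]
  ne i := by
    have := SP_iter_pos hn i
    omega

/-- the constant -/
def K0 : ℕ := 33 * (2 ^ 13 * 86 ^ 49)

theorem master {n : ℕ} (hn : 0 < n) {S : ℕ} (hS : 1 ≤ S) (M : ℕ) :
    (M : ℝ) ≤ K0 * S ^ 51 *
      (FF (fun i => (SP^[i] n : ℤ)) S M 0 + 1 + Real.log n) := by
  have hS1 : (1 : ℝ) ≤ S := by exact_mod_cast hS
  have h1 := (tr hn).main nu3_Nu hS (L := 0) (fun i => Real.log_nonneg ((tr hn).a1 i)) M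
  simp only [Function.iterate_zero, id, sub_zero, Int.cast_natCast, Nat.abs_cast, Int.cast_ofNat,
    Int.cast_one, abs_one, mul_one] at h1
  have hν : nu3 S * (2 ^ 13 * (86 * (S : ℝ)) ^ 49) = 1 := by
    unfold nu3
    field_simp
  have h2 := mul_le_mul_of_nonneg_right h1 (show (0 : ℝ) ≤ 2 ^ 13 * (86 * (S : ℝ)) ^ 49 by positivity)
  rw [mul_assoc, hν, mul_one] at h2
  refine h2.trans (le_of_eq ?_)
  unfold K0
  push_cast
  ring

end Pool.Agent.H15.St
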