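import Mathlib
import Pool.Agent.H15.St.Nat

set_option autoImplicit false

/-!
The scaled total stopping times and the terms with a long stopping time.
-/

namespace Pool.Agent.H15.St

open Finset
open scoped ENNReal

/-- the times before `1` with a stopping time larger than `S` -/
def longTimes (S n : ℕ) : Set ℕ :=
  {i | (∀ i' ≤ i, SP^[i'] n ≠ 1) ∧ ∀ j, 1 ≤ j → j ≤ S → SP^[i] n ≤ SP^[i + j] n}

/-- the total stopping time, in `[0, ∞]` -/
noncomputable def sigma (n : ℕ) : ℝ≥0∞ := ⨅ (k : ℕ) (_ : SP^[k] n = 1), (k : ℝ≥0∞)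

theorem ineq {n : ℕ} (hn : 2 ≤ n) {S : ℕ} (hS : 1 ≤ S) (M : ℕ) (hM : ∀ i < M, SP^[i] n ≠ 1) :
    (M : ℝ) ≤ 3 * K0 * S ^ 51 * (Real.log n + (longTimes S n ∩ Set.Iio M).ncard) := by
  classical
  have h1 := master (by omega : 0 < n) hS M
  have h2 : FF (fun i => (SP^[i] n : ℤ)) S M 0 ≤ (longTimes S n ∩ Set.Iio M).ncard := by
    unfold FF
    rw [← Set.ncard_coe_finset]
    apply Set.ncard_le_ncard _ ((Set.finite_Iio M).inter_of_right _)
    intro i hi
    rw [mem_coe, mem_filter, mem_Ico] at hi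
    refine ⟨⟨fun i' hi' => hM i' (by omega), fun j hj1 hj2 => ?_⟩, hi.1.2⟩
    have := hi.2 j hj1 hj2
    simp only [Nat.abs_cast] at this
    exact_mod_cast this
  have h2R : (FF (fun i => (SP^[i] n : ℤ)) S M 0 : ℝ) ≤ (longTimes S n ∩ Set.Iio M).ncard := by
    exact_mod_cast h2
  have hl : (1 / 2 : ℝ) ≤ Real.log n := by
    have h3 : Real.log 2 ≤ Real.log n := Real.log_le_log (by norm_num) (by exact_mod_cast hn)
    have := Real.log_two_gt_d9
    linarith
  refine h1.trans ?_
  have h4 : (FF (fun i => (SP^[i] n : ℤ)) S M 0 : ℝ) + 1 + Real.log n ≤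
      3 * (Real.log n + (longTimes S n ∩ Set.Iio M).ncard) := by
    have : (0 : ℝ) ≤ (longTimes S n ∩ Set.Iio M).ncard := Nat.cast_nonneg _
    linarith
  have h5 : (0 : ℝ) ≤ K0 * S ^ 51 := by positivity
  have h6 := mul_le_mul_of_nonneg_left h4 h5
  refine h6.trans (le_of_eq (by ring))

theorem long_le_sigma (S n : ℕ) : ((longTimes S n).encard : ℝ≥0∞) ≤ sigma n := by
  unfold sigma
  refine le_iInf₂ fun k hk => ?_
  have h1 : longTimes S n ⊆ (Set.Iio k : Set ℕ) := by
    intro i hi
    by_contra hcon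
    rw [Set.mem_Iio, not_lt] at hcon
    exact hi.1 k hcon hk
  have h2 : (longTimes S n).encard ≤ (k : ℕ∞) := by
    refine (Set.encard_le_encard h1).trans ?_
    have h3 : (Set.Iio k : Set ℕ) = ((range k : Finset ℕ) : Set ℕ) := by ext; simp
    rw [h3, Set.encard_coe_eq_coe_finsetCard, card_range]
  have h3 := ENat.toENNReal_le.2 h2
  simpa using h3

theorem sigma_le {n : ℕ} (hn : 2 ≤ n) {S : ℕ} (hS : 1 ≤ S) :
    sigma n ≤ ENNReal.ofReal (3 * K0 * S ^ 51) *
      (ENNReal.ofReal (Real.log n) + ((longTimes S n).encard : ℝ≥0∞)) := by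
  have hc : (0 : ℝ) < 3 * K0 * S ^ 51 := by
    have : (0 : ℝ) < S := by exact_mod_cast hS
    have : (0 : ℝ) < K0 := by unfold K0; positivity
    positivity
  have hlog : 0 ≤ Real.log n := Real.log_nonneg (by exact_mod_cast (by omega : 1 ≤ n))
  by_cases hk : ∃ k, SP^[k] n = 1
  · classical
    set k := Nat.find hk with hkd
    have hk1 : SP^[k] n = 1 := Nat.find_spec hk
    have hk2 : ∀ i < k, SP^[i] n ≠ 1 := fun i hi => Nat.find_min hk hi
    have h1 : sigma n ≤ (k : ℝ≥0∞) := iInf₂_le k hk1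
    have h2 := ineq hn hS k hk2
    have h3 : longTimes S n ∩ Set.Iio k = longTimes S n := by
      apply Set.inter_eq_left.2
      intro i hi
      by_contra hcon
      rw [Set.mem_Iio, not_lt] at hcon
      exact hi.1 k hcon hk1
    have hfin : (longTimes S n).Finite := by
      rw [← h3]; exact (Set.finite_Iio k).inter_of_right _
    rw [h3] at h2
    have h4 : ((longTimes S n).encard : ℝ≥0∞) = ENNReal.ofReal ((longTimes S n).ncard : ℝ) := by
      rw [← hfin.cast_ncard_eq, ENNReal.ofReal_natCast]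
      simp
    rw [h4, ← ENNReal.ofReal_add hlog (Nat.cast_nonneg _), ← ENNReal.ofReal_mul hc.le]
    refine h1.trans ?_
    rw [← ENNReal.ofReal_natCast k]
    exact ENNReal.ofReal_le_ofReal h2
  · push Not at hk
    by_cases hfin : (longTimes S n).Finite
    · exfalso
      obtain ⟨M, hM⟩ := exists_nat_gt (3 * K0 * S ^ 51 * (Real.log n + (longTimes S n).ncard) : ℝ)
      have h1 := ineq hn hS M fun i _ => hk i
      have h2 : (longTimes S n ∩ Set.Iio M).ncard ≤ (longTimes S n).ncard :=
        Set.ncard_le_ncard Set.inter_subset_left hfin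
      have h2R : ((longTimes S n ∩ Set.Iio M).ncard : ℝ) ≤ (longTimes S n).ncard := by
        exact_mod_cast h2
      have h3 := mul_le_mul_of_nonneg_left
        (show Real.log n + (longTimes S n ∩ Set.Iio M).ncard ≤
          Real.log n + (longTimes S n).ncard by linarith) hc.le
      linarith
    · have h1 : (longTimes S n).encard = ⊤ := Set.encard_eq_top_iff.2 hfin
      rw [h1, ENat.toENNReal_top, add_top, ENNReal.mul_top]
      · exact le_top
      · exact (ENNReal.ofReal_pos.2 hc).ne'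

/-- the scaled stopping time constant -/
noncomputable def gamma : ℝ≥0∞ :=
  Filter.limsup (fun n : ℕ => sigma n / ENNReal.ofReal (Real.log n)) Filter.atTop

noncomputable def beta (S : ℕ) : ℝ≥0∞ :=
  Filter.limsup (fun n : ℕ => ((longTimes S n).encard : ℝ≥0∞) / ENNReal.ofReal (Real.log n))
    Filter.atTop

theorem beta_le (S : ℕ) : beta S ≤ gamma :=
  Filter.limsup_le_limsup (Filter.Eventually.of_forall fun n =>
    ENNReal.div_le_div_right (long_le_sigma S n) _)

theorem gamma_le {S : ℕ} (hS : 1 ≤ S) :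
    gamma ≤ ENNReal.ofReal (3 * K0 * S ^ 51) * (1 + beta S) := by
  have h1 : ∀ᶠ n : ℕ in Filter.atTop, sigma n / ENNReal.ofReal (Real.log n) ≤
      ENNReal.ofReal (3 * K0 * S ^ 51) *
        (1 + ((longTimes S n).encard : ℝ≥0∞) / ENNReal.ofReal (Real.log n)) := by
    filter_upwards [Filter.eventually_ge_atTop 2] with n hn
    have hlog : 0 < Real.log n := Real.log_pos (by exact_mod_cast (by omega : 1 < n))
    have hL0 : ENNReal.ofReal (Real.log n) ≠ 0 := (ENNReal.ofReal_pos.2 hlog).ne'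
    have hLt : ENNReal.ofReal (Real.log n) ≠ ⊤ := ENNReal.ofReal_ne_top
    refine (ENNReal.div_le_div_right (sigma_le hn hS) _).trans ?_
    rw [mul_div_assoc, ENNReal.add_div, ENNReal.div_self hL0 hLt]
  refine (Filter.limsup_le_limsup h1).trans ?_
  rw [ENNReal.limsup_const_mul_of_ne_top ENNReal.ofReal_ne_top]
  rw [limsup_const_add Filter.atTop _ (1 : ℝ≥0∞) (by isBoundedDefault) (by isBoundedDefault)]
  exact le_rfl

end Pool.Agent.H15.St
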