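import Mathlib
import Pool.Agent.H15.St.Gam

set_option autoImplicit false

/-!
The exceptions to `l(n) ≤ n` and the terms with a long stopping time.
-/

namespace Pool.Agent.H15.St

open Finset

/-- the Collatz function -/
def Col (n : ℕ) : ℕ := if n % 2 = 0 then n / 2 else 3 * n + 1

/-- every value of the accelerated trajectory at time `i` is reached by the Collatz function at a
time at most `2 i` -/
theorem unaccel (n i : ℕ) : ∃ k ≤ 2 * i, Col^[k] n = SP^[i] n := by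
  induction i with
  | zero => exact ⟨0, le_rfl, rfl⟩
  | succ i ih =>
    obtain ⟨k, hk, h⟩ := ih
    rw [Function.iterate_succ_apply']
    set y := SP^[i] n with hy
    rcases Nat.mod_two_eq_zero_or_one y with h0 | h0
    · refine ⟨k + 1, by omega, ?_⟩
      rw [Function.iterate_succ_apply', h]
      simp [Col, SP, h0]
    · refine ⟨k + 2, by omega, ?_⟩
      rw [Function.iterate_succ_apply', Function.iterate_succ_apply', h]
      have h1 : Col y = 3 * y + 1 := by simp [Col, h0]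
      have h2 : (3 * y + 1) % 2 = 0 := by omega
      rw [h1]
      simp [Col, SP, h0, h2]

theorem asym : ∃ N : ℕ, ∀ n : ℕ, N ≤ n → ∀ S : ℕ, S ^ 52 ≤ n →
    3 * K0 * (S : ℝ) ^ 51 * Real.log n ≤ n / 8 := by
  have hK : (0 : ℝ) < K0 := by unfold K0; positivity
  have h1 := isLittleO_log_rpow_atTop (show (0 : ℝ) < 1 / 52 by norm_num)
  have h2 := h1.bound (show (0 : ℝ) < 1 / (24 * K0) by positivity)
  obtain ⟨X, hX⟩ := Filter.eventually_atTop.1 (h2.and (Filter.eventually_ge_atTop (1 : ℝ)))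
  refine ⟨max 1 ⌈X⌉₊, fun n hn S hS => ?_⟩
  obtain ⟨h3, h4⟩ := hX n (Nat.ceil_le.1 ((le_max_right _ _).trans hn))
  have hn0 : (0 : ℝ) < n := by linarith
  have hlog : 0 ≤ Real.log n := Real.log_nonneg h4
  rw [Real.norm_of_nonneg hlog, Real.norm_of_nonneg (by positivity)] at h3
  have hSR : (S : ℝ) ^ 52 ≤ n := by exact_mod_cast hS
  have hS2 : (S : ℝ) ≤ (n : ℝ) ^ (1 / 52 : ℝ) := by
    have h5 : ((S : ℝ) ^ 52) ^ (1 / 52 : ℝ) ≤ (n : ℝ) ^ (1 / 52 : ℝ) :=
      Real.rpow_le_rpow (by positivity) hSR (by norm_num)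
    rw [← Real.rpow_natCast, ← Real.rpow_mul (Nat.cast_nonneg _)] at h5
    norm_num at h5
    exact h5
  set w := (n : ℝ) ^ (1 / 52 : ℝ) with hw
  have hw0 : 0 ≤ w := by positivity
  have hwn : w ^ 52 = n := by
    rw [hw, ← Real.rpow_natCast, ← Real.rpow_mul hn0.le]
    norm_num
  have h5 : (S : ℝ) ^ 51 ≤ w ^ 51 := pow_le_pow_left₀ (Nat.cast_nonneg _) hS2 _
  calc 3 * K0 * (S : ℝ) ^ 51 * Real.log n ≤ 3 * K0 * w ^ 51 * (1 / (24 * K0) * w) := by
        apply mul_le_mul _ h3 hlog (by positivity)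
        exact mul_le_mul_of_nonneg_left h5 (by positivity)
    _ = w ^ 52 / 8 := by field_simp; ring
    _ = n / 8 := by rw [hwn]

/-- **exceptions have many terms with a long stopping time** -/
theorem exc : ∃ N : ℕ, ∀ n : ℕ, N ≤ n → (∀ k ≤ n, Col^[k] n ≠ 1) → ∀ S : ℕ, 1 ≤ S → S ^ 52 ≤ n →
    (n : ℝ) ≤ 12 * K0 * S ^ 51 *
      (({i | i < n / 2 ∧ 2 < SP^[i] n ∧ ∀ j, 1 ≤ j → j ≤ S → SP^[i] n ≤ SP^[i + j] n} :
        Set ℕ).ncard) := by
  obtain ⟨N, hN⟩ := asym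
  refine ⟨max N 10, fun n hn hcol S hS hSn => ?_⟩
  have hn10 : 10 ≤ n := (le_max_right _ _).trans hn
  have hne : ∀ i, i ≤ n / 2 → SP^[i] n ≠ 1 := by
    intro i hi h
    obtain ⟨k, hk, h2⟩ := unaccel n i
    exact hcol k (by omega) (h2.trans h)
  have h1 := ineq (by omega : 2 ≤ n) hS (n / 2) fun i hi => hne i hi.le
  have h2 := hN n ((le_max_left _ _).trans hn) S hSn
  have h3 : longTimes S n ∩ Set.Iio (n / 2) =
      {i | i < n / 2 ∧ 2 < SP^[i] n ∧ ∀ j, 1 ≤ j → j ≤ S → SP^[i] n ≤ SP^[i + j] n} := by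
    ext i
    constructor
    · rintro ⟨hi1, hi2⟩
      rw [Set.mem_Iio] at hi2
      refine ⟨hi2, ?_, hi1.2⟩
      have h4 := SP_iter_pos (by omega : 0 < n) i
      have h5 := hne i hi2.le
      have h6 := hne (i + 1) hi2
      rw [Function.iterate_succ_apply'] at h6
      by_contra hcon
      have h7 : SP^[i] n = 2 := by omega
      rw [h7] at h6
      exact h6 rfl
    · rintro ⟨hi1, hi2, hi3⟩
      exact ⟨⟨fun i' hi' => hne i' (by omega), hi3⟩, hi1⟩
  rw [h3] at h1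
  set F := ({i | i < n / 2 ∧ 2 < SP^[i] n ∧ ∀ j, 1 ≤ j → j ≤ S → SP^[i] n ≤ SP^[i + j] n} :
        Set ℕ).ncard with hF
  have h4 : ((n : ℝ) - 1) / 2 ≤ ((n / 2 : ℕ) : ℝ) := by
    have h12 : n ≤ 2 * (n / 2) + 1 := by omega
    have h13 : (n : ℝ) ≤ 2 * ((n / 2 : ℕ) : ℝ) + 1 := by exact_mod_cast h12
    linarith
  have h5 : (10 : ℝ) ≤ n := by exact_mod_cast hn10
  have h6 : 3 * K0 * (S : ℝ) ^ 51 * (Real.log n + F) =
      3 * K0 * S ^ 51 * Real.log n + 3 * K0 * S ^ 51 * F := by ring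
  rw [h6] at h1
  have h7 : 12 * K0 * (S : ℝ) ^ 51 * F = 4 * (3 * K0 * S ^ 51 * F) := by ring
  rw [h7]
  linarith

end Pool.Agent.H15.St
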